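import Pool.Agent.W838.DC.Slice

/-!
# Project DC, DC2-SLICE: every chain of three roots and every vertex lie in a slice
-/

set_option autoImplicit false

namespace Pool.Agent.W540.DC

open Pool.Agent.W838.DC Sys Tab

/-- integer vectors with three coordinates -/
abbrev V3 := ℤ × ℤ × ℤ

/-- three by three matrices (rows) -/
abbrev Mt := V3 × V3 × V3

def dot (u t : V3) : ℤ := u.1 * t.1 + u.2.1 * t.2.1 + u.2.2 * t.2.2

def Gm (m : V3) : V3 := (2 * m.1 - m.2.1, 2 * m.2.1 - m.1 - m.2.2, 2 * m.2.2 - m.2.1)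

def row (u m : V3) (x : ℤ) : V3 := (u.1 - x * m.1, u.2.1 - x * m.2.1, u.2.2 - x * m.2.2)

def step (m : V3) (A : Mt) : Mt :=
  (row A.1 m (m.1 + dot A.1 (Gm m)), row A.2.1 m (m.2.1 + dot A.2.1 (Gm m)),
    row A.2.2 m (m.2.2 + dot A.2.2 (Gm m)))

def mv (A : Mt) (t : V3) : V3 := (dot A.1 t, dot A.2.1 t, dot A.2.2 t)

/-- coordinates of the six positive roots -/
def cf : ℕ → V3
  | 0 => (1, 0, 0)
  | 1 => (0, 1, 0)
  | 2 => (0, 0, 1)
  | 3 => (1, 1, 0)
  | 4 => (0, 1, 1)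
  | 5 => (1, 1, 1)
  | _ => (0, 0, 0)

def Mx : List ℕ → Mt
  | [] => ((0, 0, 0), (0, 0, 0), (0, 0, 0))
  | k :: w => step (cf k) (Mx w)

/-- coefficients of the label of the `k`-th root at the element `g` -/
def cc (g k : ℕ) : V3 :=
  ((cf k).1 + (mv (Mx (wd g)) (Gm (cf k))).1, (cf k).2.1 + (mv (Mx (wd g)) (Gm (cf k))).2.1,
    (cf k).2.2 + (mv (Mx (wd g)) (Gm (cf k))).2.2)

instance decV3 : DecidableEq V3 := inferInstance

instance decMt : DecidableEq Mt := fun _ _ => inferInstance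

theorem chk_step : ∀ g < 24, ∀ k < 6, step (cf k) (Mx (wd g)) = Mx (wd (T g k)) := by
  decide +kernel

theorem chk_sgn : ∀ g < 24, ∀ k < 6,
    (sgn g k = true ∧ 0 ≤ (cc g k).1 ∧ 0 ≤ (cc g k).2.1 ∧ 0 ≤ (cc g k).2.2 ∧
      0 < (cc g k).1 + (cc g k).2.1 + (cc g k).2.2) ∨
    (sgn g k = false ∧ (cc g k).1 ≤ 0 ∧ (cc g k).2.1 ≤ 0 ∧ (cc g k).2.2 ≤ 0) := by
  decide +kernel

theorem chk_ip : ∀ i < 6, ∀ j < 6, dot (cf i) (Gm (cf j)) = (ipN i j : ℤ) - 1 := by
  decide +kernel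

theorem chk_add : ∀ i < 6, ∀ j < 6, addN i j ≠ 7 → (cf i).1 + (cf j).1 = (cf (addN i j)).1 ∧
    (cf i).2.1 + (cf j).2.1 = (cf (addN i j)).2.1 ∧
    (cf i).2.2 + (cf j).2.2 = (cf (addN i j)).2.2 := by
  decide +kernel

theorem chk_sub : ∀ i < 6, ∀ j < 6, subN i j ≠ 7 → (cf i).1 - (cf j).1 = (cf (subN i j)).1 ∧
    (cf i).2.1 - (cf j).2.1 = (cf (subN i j)).2.1 ∧
    (cf i).2.2 - (cf j).2.2 = (cf (subN i j)).2.2 := by
  decide +kernel

section

variable {V X : Type*} [AddCommGroup V] (σ : Sys V X)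

/-- linear combination -/
def lin (a b c : V) (m : V3) : V := m.1 • a + m.2.1 • b + m.2.2 • c

/-- inner products with the members of the chain -/
def tt (a b c : V) (v : V) : V3 := (σ.ip v a, σ.ip v b, σ.ip v c)

structure Chn (a b c : V) : Prop where
  ha : a ∈ σ.Φ
  hb : b ∈ σ.Φ
  hc : c ∈ σ.Φ
  hab : σ.ip a b = -1
  hbc : σ.ip b c = -1
  hac : σ.ip a c = 0

variable {σ} {a b c : V}

theorem ip_lin (v : V) (m : V3) : σ.ip v (lin a b c m) = dot m (tt σ a b c v) := by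
  unfold lin dot tt
  rw [σ.ip_add_right, σ.ip_add_right, σ.ip_zsmul_right, σ.ip_zsmul_right, σ.ip_zsmul_right]

theorem tt_lin (h : Chn σ a b c) (m : V3) : tt σ a b c (lin a b c m) = Gm m := by
  have e1 := σ.ip_self a h.ha
  have e2 := σ.ip_self b h.hb
  have e3 := σ.ip_self c h.hc
  have e4 : σ.ip b a = -1 := by rw [σ.ip_symm, h.hab]
  have e5 : σ.ip c b = -1 := by rw [σ.ip_symm, h.hbc]
  have e6 : σ.ip c a = 0 := by rw [σ.ip_symm, h.hac]
  unfold lin tt Gm
  simp only [σ.ip_add, σ.ip_zsmul, e1, e2, e3, e4, e5, e6, h.hab, h.hbc, h.hac, Prod.mk.injEq]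
  exact ⟨by ring, by ring, by ring⟩

theorem lab_step (h : Chn σ a b c) {x y : X} {A : Mt} {m : V3} (hm : lin a b c m ∈ σ.Φ)
    (hy : ∀ v, σ.lab y v = σ.lab x (v + lin a b c (mv A (tt σ a b c v)))) (v : V) :
    σ.lab (σ.r (lin a b c m) y) v =
      σ.lab x (v + lin a b c (mv (step m A) (tt σ a b c v))) := by
  rw [σ.lab_r _ hm, hy]
  congr 1
  have h1 : σ.ip v (lin a b c m) = dot m (tt σ a b c v) := ip_lin v m
  have h2 : tt σ a b c (v - σ.ip v (lin a b c m) • lin a b c m) =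
      ((tt σ a b c v).1 - dot m (tt σ a b c v) * (Gm m).1,
        (tt σ a b c v).2.1 - dot m (tt σ a b c v) * (Gm m).2.1,
        (tt σ a b c v).2.2 - dot m (tt σ a b c v) * (Gm m).2.2) := by
    rw [h1, ← tt_lin h m]
    unfold tt
    simp only [σ.ip_sub, σ.ip_zsmul]
  rw [h2, h1]
  generalize tt σ a b c v = t
  obtain ⟨t1, t2, t3⟩ := t
  obtain ⟨m1, m2, m3⟩ := m
  obtain ⟨⟨a1, a2, a3⟩, ⟨b1, b2, b3⟩, ⟨c1, c2, c3⟩⟩ := A
  unfold lin mv step row dot Gm
  simp only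
  module

/-- words of reflections -/
def run (σ : Sys V X) (a b c : V) : List ℕ → X → X
  | [], x => x
  | k :: w, x => σ.r (lin a b c (cf k)) (run σ a b c w x)

theorem lin_mem (h : Chn σ a b c) : ∀ k < 6, lin a b c (cf k) ∈ σ.Φ := by
  have hab := σ.add_mem h.ha h.hb h.hab
  have hbc := σ.add_mem h.hb h.hc h.hbc
  have habc := σ.add_mem hab h.hc (by rw [σ.ip_add, h.hac, h.hbc]; rfl)
  intro k hk
  interval_cases k
  · unfold lin cf; simpa using h.ha
  · unfold lin cf; simpa using h.hb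
  · unfold lin cf; simpa using h.hc
  · unfold lin cf; simpa using hab
  · unfold lin cf; simpa using hbc
  · unfold lin cf; simpa using habc

theorem lab_run (h : Chn σ a b c) (x : X) : ∀ w : List ℕ, (∀ k ∈ w, k < 6) → ∀ v,
    σ.lab (run σ a b c w x) v = σ.lab x (v + lin a b c (mv (Mx w) (tt σ a b c v)))
  | [], _, v => by
    have : lin a b c (mv (Mx []) (tt σ a b c v)) = 0 := by
      unfold lin mv Mx dot
      simp
    rw [this, add_zero]
    rfl
  | k :: w, hw, v => by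
    have ih := lab_run h x w (fun k hk => hw k (List.mem_cons_of_mem _ hk))
    exact lab_step h (lin_mem h k (hw k (List.mem_cons_self))) ih v

theorem lin_add (m m' : V3) : lin a b c m + lin a b c m' =
    lin a b c (m.1 + m'.1, m.2.1 + m'.2.1, m.2.2 + m'.2.2) := by
  unfold lin
  simp only
  module

theorem lin_sub (m m' : V3) : lin a b c m - lin a b c m' =
    lin a b c (m.1 - m'.1, m.2.1 - m'.2.1, m.2.2 - m'.2.2) := by
  unfold lin
  simp only
  module

theorem wd_lt : ∀ g < 24, ∀ k ∈ wd g, k < 6 := by decide +kernel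

/-- STEP A: the slice of a positive chain and a minimal vertex -/
def mkSlice (h : Chn σ a b c) (pa : 0 < σ.ht a) (pb : 0 < σ.ht b) (pc : 0 < σ.ht c) (z : X)
    (qa : 0 < σ.ht (σ.lab z a)) (qb : 0 < σ.ht (σ.lab z b)) (qc : 0 < σ.ht (σ.lab z c)) :
    Slice σ where
  ρ := fun k => lin a b c (cf k)
  e := fun g => run σ a b c (wd g) z
  mem := by
    intro k hk
    refine ⟨lin_mem h k hk, ?_⟩
    interval_cases k <;> unfold lin cf <;> simp <;> omega
  ipρ := by
    intro i hi j hj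
    rw [σ.ip_symm, ip_lin, tt_lin h, ← chk_ip i hi j hj]
  addρ := by
    intro i hi j hj hij
    obtain ⟨h1, h2, h3⟩ := chk_add i hi j hj hij
    rw [lin_add, h1, h2, h3]
  subρ := by
    intro i hi j hj hij
    obtain ⟨h1, h2, h3⟩ := chk_sub i hi j hj hij
    rw [lin_sub, h1, h2, h3]
  eT := by
    intro g hg k hk
    apply σ.ext
    intro v
    rw [lab_run h z (wd (T g k)) (wd_lt _ (T_lt g hg k hk)), ← chk_step g hg k hk]
    exact lab_step h (lin_mem h k hk) (lab_run h z (wd g) (wd_lt g hg)) v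
  esgn := by
    intro g hg k hk
    have h1 : σ.ht (σ.lab (run σ a b c (wd g) z) (lin a b c (cf k))) =
        (cc g k).1 * σ.ht (σ.lab z a) + (cc g k).2.1 * σ.ht (σ.lab z b) +
          (cc g k).2.2 * σ.ht (σ.lab z c) := by
      rw [lab_run h z (wd g) (wd_lt g hg), tt_lin h, lin_add]
      unfold lin cc
      simp only [map_add, map_zsmul, smul_eq_mul]
    rw [h1]
    rcases chk_sgn g hg k hk with ⟨e0, e1, e2, e3, e4⟩ | ⟨e0, e1, e2, e3⟩
    · rw [e0]
      simp only [iff_true]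
      rcases e1.lt_or_eq with h5 | h5
      · nlinarith [mul_pos h5 qa, mul_nonneg e2 qb.le, mul_nonneg e3 qc.le]
      · rcases e2.lt_or_eq with h6 | h6
        · nlinarith [mul_nonneg e1 qa.le, mul_pos h6 qb, mul_nonneg e3 qc.le]
        · have h7 : 0 < (cc g k).2.2 := by omega
          nlinarith [mul_nonneg e1 qa.le, mul_nonneg e2 qb.le, mul_pos h7 qc]
    · rw [e0]
      simp only [Bool.false_eq_true, iff_false, not_lt]
      nlinarith [mul_nonneg_of_nonpos_of_nonpos e1 (neg_nonpos.2 qa.le),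
        mul_nonneg_of_nonpos_of_nonpos e2 (neg_nonpos.2 qb.le),
        mul_nonneg_of_nonpos_of_nonpos e3 (neg_nonpos.2 qc.le)]

/-- is negative -/
def ng (x : ℤ) : ℕ := if x < 0 then 1 else 0

/-- number of negative roots -/
def cn (m : V3) : ℕ := ng m.1 + ng m.2.1 + ng m.2.2 + ng (m.1 + m.2.1) + ng (m.2.1 + m.2.2) +
  ng (m.1 + m.2.1 + m.2.2)

/-- the three moves -/
def mo (i : ℕ) (m : V3) : V3 := if i = 0 then (-m.1, m.1 + m.2.1, m.2.2) else
  if i = 1 then (m.1 + m.2.1, -m.2.1, m.2.1 + m.2.2) else (m.1, m.2.1 + m.2.2, -m.2.2)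

theorem cn_mo (m : V3) : (m.1 < 0 → cn (mo 0 m) < cn m) ∧
    (m.2.1 < 0 → cn (mo 1 m) < cn m) ∧ (m.2.2 < 0 → cn (mo 2 m) < cn m) := by
  obtain ⟨p, q, s⟩ := m
  have n1 : ∀ x : ℤ, x < 0 → ng (-x) = 0 ∧ ng x = 1 := by
    intro x hx
    unfold ng
    exact ⟨by rw [if_neg (by omega)], by rw [if_pos hx]⟩
  refine ⟨fun h => ?_, fun h => ?_, fun h => ?_⟩
  · obtain ⟨h1, h2⟩ := n1 _ h
    unfold cn mo
    simp only [if_true]
    rw [show -p + (p + q) = q by ring, h1, h2]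
    omega
  · obtain ⟨h1, h2⟩ := n1 _ h
    unfold cn mo
    simp only [if_true, one_ne_zero, if_false]
    rw [show p + q + -q = p by ring, show -q + (q + s) = s by ring,
      show p + (q + s) = p + q + s by ring, h1, h2]
    omega
  · obtain ⟨h1, h2⟩ := n1 _ h
    unfold cn mo
    simp only [if_false, show (2 : ℕ) ≠ 0 by decide, show (2 : ℕ) ≠ 1 by decide]
    rw [show q + s + -s = q by ring, show p + (q + s) + -s = p + q by ring,
      show p + (q + s) = p + q + s by ring, h1, h2]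
    omega

/-- descent to a positive state -/
theorem descent {S : Type*} (val : S → V3) (Ok : S → Prop) (Rel : S → S → Prop)
    (hrefl : ∀ x, Rel x x) (htrans : ∀ x y z, Rel x y → Rel y z → Rel x z)
    (hnz : ∀ x, Ok x → (val x).1 ≠ 0 ∧ (val x).2.1 ≠ 0 ∧ (val x).2.2 ≠ 0)
    (hm : ∀ x, Ok x → ∀ i < 3, ∃ y, Ok y ∧ Rel x y ∧ val y = mo i (val x)) :
    ∀ n : ℕ, ∀ x, Ok x → cn (val x) ≤ n →
      ∃ y, Ok y ∧ Rel x y ∧ 0 < (val y).1 ∧ 0 < (val y).2.1 ∧ 0 < (val y).2.2 := by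
  intro n
  induction n with
  | zero =>
    intro x hx hn
    obtain ⟨h1, h2, h3⟩ := hnz x hx
    obtain ⟨g1, g2, g3⟩ := cn_mo (val x)
    refine ⟨x, hx, hrefl x, ?_, ?_, ?_⟩
    · by_contra hc
      have := g1 (by omega)
      omega
    · by_contra hc
      have := g2 (by omega)
      omega
    · by_contra hc
      have := g3 (by omega)
      omega
  | succ n ih =>
    intro x hx hn
    obtain ⟨h1, h2, h3⟩ := hnz x hx
    obtain ⟨g1, g2, g3⟩ := cn_mo (val x)
    have key : ∀ i < 3, cn (mo i (val x)) < cn (val x) →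
        ∃ y, Ok y ∧ Rel x y ∧ 0 < (val y).1 ∧ 0 < (val y).2.1 ∧ 0 < (val y).2.2 := by
      intro i hi hlt
      obtain ⟨y, hy, hr, hv⟩ := hm x hx i hi
      obtain ⟨w, hw, hr', hp⟩ := ih y hy (by rw [hv]; omega)
      exact ⟨w, hw, htrans _ _ _ hr hr', hp⟩
    by_cases hp : (val x).1 < 0
    · exact key 0 (by norm_num) (g1 hp)
    by_cases hq : (val x).2.1 < 0
    · exact key 1 (by norm_num) (g2 hq)
    by_cases hs : (val x).2.2 < 0
    · exact key 2 (by norm_num) (g3 hs)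
    exact ⟨x, hx, hrefl x, by omega, by omega, by omega⟩

/-- a root of the chain, up to sign -/
def Rt (t : V × V × V) (v : V) : Prop :=
  ∃ k < 6, v = lin t.1 t.2.1 t.2.2 (cf k) ∨ v = -lin t.1 t.2.1 t.2.2 (cf k)

theorem lin_cf (a b c : V) : lin a b c (cf 0) = a ∧ lin a b c (cf 1) = b ∧ lin a b c (cf 2) = c ∧
    lin a b c (cf 3) = a + b ∧ lin a b c (cf 4) = b + c ∧ lin a b c (cf 5) = a + b + c := by
  unfold lin cf
  simp

theorem Rt_iff (t : V × V × V) (v : V) : Rt t v ↔ (v = t.1 ∨ v = -t.1) ∨ (v = t.2.1 ∨ v = -t.2.1) ∨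
    (v = t.2.2 ∨ v = -t.2.2) ∨ (v = t.1 + t.2.1 ∨ v = -(t.1 + t.2.1)) ∨
    (v = t.2.1 + t.2.2 ∨ v = -(t.2.1 + t.2.2)) ∨
    (v = t.1 + t.2.1 + t.2.2 ∨ v = -(t.1 + t.2.1 + t.2.2)) := by
  obtain ⟨h0, h1, h2, h3, h4, h5⟩ := lin_cf t.1 t.2.1 t.2.2
  constructor
  · rintro ⟨k, hk, h⟩
    interval_cases k
    · rw [h0] at h; exact Or.inl h
    · rw [h1] at h; exact Or.inr (Or.inl h)
    · rw [h2] at h; exact Or.inr (Or.inr (Or.inl h))
    · rw [h3] at h; exact Or.inr (Or.inr (Or.inr (Or.inl h)))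
    · rw [h4] at h; exact Or.inr (Or.inr (Or.inr (Or.inr (Or.inl h))))
    · rw [h5] at h; exact Or.inr (Or.inr (Or.inr (Or.inr (Or.inr h))))
  · rintro (h | h | h | h | h | h)
    · exact ⟨0, by norm_num, by rw [h0]; exact h⟩
    · exact ⟨1, by norm_num, by rw [h1]; exact h⟩
    · exact ⟨2, by norm_num, by rw [h2]; exact h⟩
    · exact ⟨3, by norm_num, by rw [h3]; exact h⟩
    · exact ⟨4, by norm_num, by rw [h4]; exact h⟩
    · exact ⟨5, by norm_num, by rw [h5]; exact h⟩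

/-- moves of chains -/
def cm (i : ℕ) (t : V × V × V) : V × V × V := if i = 0 then (-t.1, t.1 + t.2.1, t.2.2) else
  if i = 1 then (t.1 + t.2.1, -t.2.1, t.2.1 + t.2.2) else (t.1, t.2.1 + t.2.2, -t.2.2)

theorem Rt_cm (i : ℕ) (hi : i < 3) (t : V × V × V) (v : V) (h : Rt t v) : Rt (cm i t) v := by
  obtain ⟨a, b, c⟩ := t
  rw [Rt_iff] at h ⊢
  interval_cases i <;> unfold cm <;> simp only [if_true, one_ne_zero, if_false,
    show (2 : ℕ) ≠ 0 by decide, show (2 : ℕ) ≠ 1 by decide] at h ⊢ <;>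
  rcases h with (h | h) | (h | h) | (h | h) | (h | h) | (h | h) | (h | h) <;> subst h <;>
  first
  | (left; left; abel1)
  | (left; right; abel1)
  | (right; left; left; abel1)
  | (right; left; right; abel1)
  | (right; right; left; left; abel1)
  | (right; right; left; right; abel1)
  | (right; right; right; left; left; abel1)
  | (right; right; right; left; right; abel1)
  | (right; right; right; right; left; left; abel1)
  | (right; right; right; right; left; right; abel1)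
  | (right; right; right; right; right; left; abel1)
  | (right; right; right; right; right; right; abel1)

theorem Chn_cm (i : ℕ) (hi : i < 3) (t : V × V × V) (h : Chn σ t.1 t.2.1 t.2.2) :
    Chn σ (cm i t).1 (cm i t).2.1 (cm i t).2.2 := by
  obtain ⟨a, b, c⟩ := t
  have e1 := σ.ip_self a h.ha
  have e2 := σ.ip_self b h.hb
  have e3 := σ.ip_self c h.hc
  have e4 : σ.ip b a = -1 := by rw [σ.ip_symm, h.hab]
  have e5 : σ.ip c b = -1 := by rw [σ.ip_symm, h.hbc]
  have e6 : σ.ip c a = 0 := by rw [σ.ip_symm, h.hac]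
  have f1 := h.hab
  have f2 := h.hbc
  have f3 := h.hac
  have hab := σ.add_mem h.ha h.hb h.hab
  have hbc := σ.add_mem h.hb h.hc h.hbc
  simp only at e1 e2 e3 e4 e5 e6 f1 f2 f3 hab hbc
  interval_cases i <;> unfold cm <;> simp only [if_true, one_ne_zero, if_false,
    show (2 : ℕ) ≠ 0 by decide, show (2 : ℕ) ≠ 1 by decide]
  · exact ⟨σ.neg_mem h.ha, hab, h.hc, by rw [σ.ip_neg, σ.ip_add_right]; omega,
      by rw [σ.ip_add]; omega, by rw [σ.ip_neg]; omega⟩
  · exact ⟨hab, σ.neg_mem h.hb, hbc, by rw [σ.ip_neg_right, σ.ip_add]; omega,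
      by rw [σ.ip_neg, σ.ip_add_right]; omega, by rw [σ.ip_add, σ.ip_add_right, σ.ip_add_right]; omega⟩
  · exact ⟨h.ha, hbc, σ.neg_mem h.hc, by rw [σ.ip_add_right]; omega,
      by rw [σ.ip_neg_right, σ.ip_add]; omega, by rw [σ.ip_neg_right]; omega⟩

theorem val_cm (f : V →+ ℤ) (i : ℕ) (hi : i < 3) (t : V × V × V) :
    (f (cm i t).1, f (cm i t).2.1, f (cm i t).2.2) = mo i (f t.1, f t.2.1, f t.2.2) := by
  obtain ⟨a, b, c⟩ := t
  interval_cases i <;> unfold cm mo <;> simp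

theorem run_append (a b c : V) (w w' : List ℕ) (x : X) :
    run σ a b c (w ++ w') x = run σ a b c w (run σ a b c w' x) := by
  induction w with
  | nil => rfl
  | cons k w ih =>
    rw [List.cons_append]
    unfold run
    rw [ih]

theorem main (σ : Sys V X) : S_SLICE σ := by
  intro a ha b hb c hc hab hbc hac x
  obtain ⟨t, ht, hrel, p1, p2, p3⟩ := descent (S := V × V × V)
    (fun t => (σ.ht t.1, σ.ht t.2.1, σ.ht t.2.2)) (fun t => Chn σ t.1 t.2.1 t.2.2)
    (fun t t' => ∀ v, Rt t v → Rt t' v) (fun _ _ h => h) (fun _ _ _ h h' v hv => h' v (h v hv))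
    (fun t ht => ⟨σ.ht_ne _ ht.ha, σ.ht_ne _ ht.hb, σ.ht_ne _ ht.hc⟩)
    (fun t ht i hi => ⟨cm i t, Chn_cm i hi t ht, Rt_cm i hi t, val_cm σ.ht i hi t⟩)
    _ (a, b, c) ⟨ha, hb, hc, hab, hbc, hac⟩ le_rfl
  obtain ⟨a', b', c'⟩ := t
  simp only at ht p1 p2 p3
  have e4 : σ.ip b' a' = -1 := by rw [σ.ip_symm, ht.hab]
  have e5 : σ.ip c' b' = -1 := by rw [σ.ip_symm, ht.hbc]
  have e6 : σ.ip c' a' = 0 := by rw [σ.ip_symm, ht.hac]
  obtain ⟨g0, g1, g2, -, -, -⟩ := lin_cf a' b' c'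
  obtain ⟨z, -, ⟨w, hw, hz⟩, q1, q2, q3⟩ := descent (S := X)
    (fun z => (σ.ht (σ.lab z a'), σ.ht (σ.lab z b'), σ.ht (σ.lab z c'))) (fun _ => True)
    (fun y z => ∃ w : List ℕ, (∀ k ∈ w, k < 3) ∧ y = run σ a' b' c' w z)
    (fun y => ⟨[], by simp, rfl⟩)
    (by
      rintro y z u ⟨w, hw, h⟩ ⟨w', hw', h'⟩
      refine ⟨w ++ w', ?_, ?_⟩
      · intro k hk
        rcases List.mem_append.1 hk with h1 | h1
        · exact hw k h1
        · exact hw' k h1
      · rw [run_append, ← h', ← h])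
    (fun z _ => ⟨σ.lab_ht_ne z ht.ha, σ.lab_ht_ne z ht.hb, σ.lab_ht_ne z ht.hc⟩)
    (by
      intro z _ i hi
      refine ⟨σ.r (lin a' b' c' (cf i)) z, trivial, ⟨[i], ?_, ?_⟩, ?_⟩
      · intro k hk
        rw [List.mem_singleton] at hk
        omega
      · unfold run run
        rw [σ.r_r (lin_mem ht i (by omega))]
      · interval_cases i
        · rw [g0]
          simp only [σ.lab_r_self ht.ha, σ.lab_r_neg ht.ha z ht.hab, σ.lab_r_zero ht.ha z ht.hac,
            map_neg, map_add]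
          unfold mo
          simp
        · rw [g1]
          simp only [σ.lab_r_self ht.hb, σ.lab_r_neg ht.hb z ht.hbc, σ.lab_r_neg ht.hb z e4,
            map_neg, map_add]
          unfold mo
          simp [add_comm]
        · rw [g2]
          simp only [σ.lab_r_self ht.hc, σ.lab_r_neg ht.hc z e5, σ.lab_r_zero ht.hc z e6,
            map_neg, map_add]
          unfold mo
          simp [add_comm])
    _ x trivial le_rfl
  have hsl := (mkSlice ht p1 p2 p3 z q1 q2 q3).eT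
  have hex : ∀ w : List ℕ, (∀ k ∈ w, k < 3) → ∃ g < 24, run σ a' b' c' (wd g) z =
      run σ a' b' c' w z := by
    intro w
    induction w with
    | nil => exact fun _ => ⟨0, by norm_num, rfl⟩
    | cons k w ih =>
      intro hw
      obtain ⟨g, hg, h⟩ := ih (fun k hk => hw k (List.mem_cons_of_mem _ hk))
      have hk : k < 6 := by
        have := hw k List.mem_cons_self
        omega
      refine ⟨T g k, T_lt g hg k hk, ?_⟩
      have h1 := hsl g hg k hk
      have h2 : run σ a' b' c' (k :: w) z = σ.r (lin a' b' c' (cf k)) (run σ a' b' c' w z) := rfl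
      rw [h2, ← h]
      exact h1.symm
  obtain ⟨r0, r1, r2, -, -, -⟩ := lin_cf a b c
  refine ⟨mkSlice ht p1 p2 p3 z q1 q2 q3, ?_, ?_, ?_, ?_⟩
  · obtain ⟨g, hg, h⟩ := hex w hw
    exact ⟨g, hg, by rw [hz]; exact h⟩
  · exact hrel a ⟨0, by norm_num, Or.inl r0.symm⟩
  · exact hrel b ⟨1, by norm_num, Or.inl r1.symm⟩
  · exact hrel c ⟨2, by norm_num, Or.inl r2.symm⟩

end

end Pool.Agent.W540.DC
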